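import Pool.Agent.Lib.MP_252f0c_nt_h71.Classes

/-!
# The difference set of the greedy Sidon sequence: residue classes

The proof is in `Pool.Agent.Lib.MP_252f0c_nt_h71.Classes` and `Pool.Agent.Lib.MP_252f0c_nt_h71.Tail`.
-/

set_option autoImplicit false

namespace Pool.Agent.Results.MP_252f0c_nt.DifferenceClasses

open Pool.Agent.MP_252f0c_nt_h71 Pool.Agent.MP_e6e0c1_nt_h58

/-- The greedy Sidon sequence exists and is unique.  Let `A` be its range and `q ≥ 1`.  The number
of the residue classes modulo `q` with infinitely many positive elements of `A - A` is at least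
`q ^ (2 / 3) / 3`, at least `q ^ (1 / 3) A(q) / 3`, where `A(q)` is the number of the elements of `A`
in `[1, q]`, and at least `q ^ (3 / 5)`. -/
theorem result :
    (∃! a : ℕ → ℕ, IsGreedySidon a) ∧ ∀ a : ℕ → ℕ, IsGreedySidon a → ∀ q : ℕ, 1 ≤ q →
      q ^ 2 ≤ 27 * numClasses (Set.range a) q ^ 3 ∧
      q * cnt (Set.range a) q ^ 3 ≤ 27 * numClasses (Set.range a) q ^ 3 ∧
      q ^ 3 ≤ numClasses (Set.range a) q ^ 5 := by
  refine ⟨exists_unique, fun a ha q hq => ⟨?_, classes_many ha hq, diffs_many ha hq⟩⟩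
  refine le_trans ?_ (classes_many ha hq)
  rw [sq]
  exact Nat.mul_le_mul_left q (cube_le ha q)

end Pool.Agent.Results.MP_252f0c_nt.DifferenceClasses
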