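import Pool.Agent.Lib.MP_252f0c_nt_h71.Tail

/-!
# The difference set of the greedy Sidon sequence: sums and differences of two elements

The proof is in `Pool.Agent.Lib.MP_252f0c_nt_h71.Tail`.
-/

set_option autoImplicit false

namespace Pool.Agent.Results.MP_252f0c_nt.DifferencePairs

open Pool.Agent.MP_252f0c_nt_h71 Pool.Agent.MP_e6e0c1_nt_h58

/-- The greedy Sidon sequence exists and is unique.  Let `A` be its range and `D` the set of
the positive elements of `A - A`.  Every `n ≥ 1` is in at least `A(n) - 1` ways a sum `d + e` with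
`d, e ∈ D`, and for every `n ≥ 1` there is `c` such that for all `N` at least `A(N) - c` of the
`d ≤ N` are such that `d` and `d + n` are in `D`. -/
theorem result :
    (∃! a : ℕ → ℕ, IsGreedySidon a) ∧ ∀ a : ℕ → ℕ, IsGreedySidon a →
      ∀ n : ℕ, 1 ≤ n →
        cnt (Set.range a) n ≤ {d | d ∈ PosDiff (Set.range a) ∧
          ∃ e ∈ PosDiff (Set.range a), d + e = n}.ncard + 1 ∧
        ∃ c : ℕ, ∀ N : ℕ, cnt (Set.range a) N ≤
          {d | d ≤ N ∧ d ∈ PosDiff (Set.range a) ∧ d + n ∈ PosDiff (Set.range a)}.ncard + c :=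
  ⟨exists_unique, fun _ ha _ hn => ⟨sum_two ha hn, diff_two ha hn⟩⟩

end Pool.Agent.Results.MP_252f0c_nt.DifferencePairs
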