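import Pool.Agent.Lib.MP_252f0c_nt_h71.Tail

/-!
# The greedy Sidon sequence: limit points in compact groups

The proof is in `Pool.Agent.Lib.MP_252f0c_nt_h71.Tail`.
-/

set_option autoImplicit false

namespace Pool.Agent.Results.MP_252f0c_nt.LimitPoints

open Pool.Agent.MP_252f0c_nt_h71 Pool.Agent.MP_e6e0c1_nt_h58

/-- The greedy Sidon sequence exists and is unique.  For every homomorphism `φ` from `ℤ` with
dense range to a compact Hausdorff group `K`, with `L` the set of the limit points of `φ (a n)`,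
`K = L + L - L`, and all elements of `L - L` are limit points of the `φ d`, `d ∈ A - A`, `d → ∞`.
For irrational `α` the sequence `a n * α` modulo `1` has uncountably many limit points, and so have
the `d * α` with `d ∈ A - A`. -/
theorem result :
    (∃! a : ℕ → ℕ, IsGreedySidon a) ∧ ∀ a : ℕ → ℕ, IsGreedySidon a →
      (∀ (K : Type) [AddCommGroup K] [TopologicalSpace K] [IsTopologicalAddGroup K]
        [CompactSpace K] [T2Space K] (φ : ℤ →+ K), DenseRange φ →
        (∀ k : K, ∃ l₁ ∈ Lim a φ, ∃ l₂ ∈ Lim a φ, ∃ l₃ ∈ Lim a φ, l₁ + l₂ = k + l₃) ∧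
        ∀ l₁ ∈ Lim a φ, ∀ l₂ ∈ Lim a φ, l₁ - l₂ ∈ DiffLim (Set.range a) φ) ∧
      (∀ α : ℝ, Irrational α →
        ¬ (Lim a (rot α)).Countable ∧ ¬ (DiffLim (Set.range a) (rot α)).Countable) :=
  ⟨exists_unique, fun _ ha => ⟨fun _ _ _ _ _ _ _ hφ => ⟨compact_cover ha hφ,
    fun _ h1 _ h2 => diff_limits ha h1 h2⟩,
    fun _ hα => ⟨circle_limits ha hα, circle_diffs ha hα⟩⟩⟩

end Pool.Agent.Results.MP_252f0c_nt.LimitPoints
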