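import Pool.Agent.Lib.MP_252f0c_nt_h71.Tail

/-!
# The greedy Sidon sequence: almost all integers are sums of the tail

The proof is in `Pool.Agent.Lib.MP_252f0c_nt_h71.Tail`.
-/

set_option autoImplicit false

namespace Pool.Agent.Results.MP_252f0c_nt.TailCovering

open Pool.Agent.MP_252f0c_nt_h71 Pool.Agent.MP_e6e0c1_nt_h58

/-- The greedy Sidon sequence exists and is unique.  For its range `A` the sum of `1 / m` over
the `m ≤ X` which are not `x + y - z` with `x, y, z ∈ A` larger than `M` is at most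
`C √M log log X`, and for arbitrarily large `N` at most `C √M N / log N` of the `m ≤ N` are of this
kind. -/
theorem result :
    (∃! a : ℕ → ℕ, IsGreedySidon a) ∧ ∀ a : ℕ → ℕ, IsGreedySidon a →
      (∃ C : ℝ, ∀ M X : ℕ, 1 ≤ M → 3 ≤ X →
        ∑ m ∈ Exc (Set.range a) M X, (1 : ℝ) / m ≤ C * √M * Real.log (Real.log X)) ∧
      (∃ C : ℝ, ∀ M N₀ : ℕ, ∃ N : ℕ, N₀ ≤ N ∧ 3 ≤ N ∧
        ((Exc (Set.range a) M N).card : ℝ) ≤ C * √M * (N / Real.log N)) :=
  ⟨exists_unique, fun _ ha => ⟨log_sum ha, (lower_count ha).imp fun _ h => h.2⟩⟩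

end Pool.Agent.Results.MP_252f0c_nt.TailCovering
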